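import Pool.Agent.Helper72.LS.L1

/-!
LS-P4: the identities around a vertex.
-/

namespace Pool.Agent.Helper43.LS

open Finset
open scoped Classical
open Pool.Agent.Helper72.LS

/-- weighted edge sum -/
noncomputable def om {V : Type} [Fintype V] (G : SimpleGraph V) (f g : V → ℤ) : ℤ :=
  ∑ x, ∑ y, f x * g y * ad G x y

/-- weighted triangle sum -/
noncomputable def tau {V : Type} [Fintype V] (G : SimpleGraph V) (f g h : V → ℤ) : ℤ :=
  ∑ x, ∑ y, ∑ z, f x * g y * h z * (ad G x y * ad G y z * ad G x z)

theorem om_comm {V : Type} [Fintype V] (G : SimpleGraph V) (f g : V → ℤ) :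
    om G f g = om G g f := by
  unfold om
  rw [Finset.sum_comm]
  refine Finset.sum_congr rfl fun x _ => Finset.sum_congr rfl fun y _ => ?_
  rw [ad_symm G y x]; ring

theorem tau_swap12 {V : Type} [Fintype V] (G : SimpleGraph V) (f g h : V → ℤ) :
    tau G f g h = tau G g f h := by
  unfold tau
  rw [Finset.sum_comm]
  refine Finset.sum_congr rfl fun x _ => Finset.sum_congr rfl fun y _ =>
    Finset.sum_congr rfl fun z _ => ?_
  rw [ad_symm G y x]; ring

theorem tau_swap23 {V : Type} [Fintype V] (G : SimpleGraph V) (f g h : V → ℤ) :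
    tau G f g h = tau G f h g := by
  unfold tau
  refine Finset.sum_congr rfl fun x _ => ?_
  rw [Finset.sum_comm]
  refine Finset.sum_congr rfl fun y _ => Finset.sum_congr rfl fun z _ => ?_
  rw [ad_symm G z y]; ring

theorem om_sub_left {V : Type} [Fintype V] (G : SimpleGraph V) (f f' g : V → ℤ) :
    om G (fun x => f x - f' x) g = om G f g - om G f' g := by
  unfold om
  rw [← Finset.sum_sub_distrib]
  refine Finset.sum_congr rfl fun x _ => ?_
  rw [← Finset.sum_sub_distrib]
  refine Finset.sum_congr rfl fun y _ => ?_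
  ring

theorem tau_sub_left {V : Type} [Fintype V] (G : SimpleGraph V) (f f' g h : V → ℤ) :
    tau G (fun x => f x - f' x) g h = tau G f g h - tau G f' g h := by
  unfold tau
  rw [← Finset.sum_sub_distrib]
  refine Finset.sum_congr rfl fun x _ => ?_
  rw [← Finset.sum_sub_distrib]
  refine Finset.sum_congr rfl fun y _ => ?_
  rw [← Finset.sum_sub_distrib]
  refine Finset.sum_congr rfl fun z _ => ?_
  ring

/-- the constant function one -/
def one (V : Type) : V → ℤ := fun _ => 1

/-- the indicator of the neighbourhood -/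
noncomputable def qv {V : Type} (G : SimpleGraph V) (v : V) : V → ℤ := fun x => ad G v x

/-- the indicator of the non-neighbourhood -/
noncomputable def pv {V : Type} (G : SimpleGraph V) (v : V) : V → ℤ :=
  fun x => one V x - qv G v x

theorem om_pp {V : Type} [Fintype V] (G : SimpleGraph V) (v : V) :
    om G (pv G v) (pv G v) = om G (one V) (one V) - 2 * om G (qv G v) (one V)
      + om G (qv G v) (qv G v) := by
  have h1 : om G (pv G v) (pv G v) = om G (one V) (pv G v) - om G (qv G v) (pv G v) :=
    om_sub_left G _ _ _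
  have h2 : om G (pv G v) (one V) = om G (one V) (one V) - om G (qv G v) (one V) :=
    om_sub_left G _ _ _
  have h3 : om G (pv G v) (qv G v) = om G (one V) (qv G v) - om G (qv G v) (qv G v) :=
    om_sub_left G _ _ _
  rw [om_comm G (one V) (pv G v)] at h1
  rw [om_comm G (qv G v) (pv G v)] at h1
  rw [om_comm G (one V) (qv G v)] at h3
  linarith

theorem tau_ppx {V : Type} [Fintype V] (G : SimpleGraph V) (v : V) (f : V → ℤ) :
    tau G (pv G v) (pv G v) f = tau G (one V) (one V) f - 2 * tau G (qv G v) (one V) f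
      + tau G (qv G v) (qv G v) f := by
  have h1 : tau G (pv G v) (pv G v) f = tau G (one V) (pv G v) f - tau G (qv G v) (pv G v) f :=
    tau_sub_left G _ _ _ _
  have h2 : tau G (pv G v) (one V) f = tau G (one V) (one V) f - tau G (qv G v) (one V) f :=
    tau_sub_left G _ _ _ _
  have h3 : tau G (pv G v) (qv G v) f = tau G (one V) (qv G v) f - tau G (qv G v) (qv G v) f :=
    tau_sub_left G _ _ _ _
  rw [tau_swap12 G (one V) (pv G v)] at h1
  rw [tau_swap12 G (qv G v) (pv G v)] at h1
  rw [tau_swap12 G (one V) (qv G v)] at h3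
  linarith

theorem tau_ppp {V : Type} [Fintype V] (G : SimpleGraph V) (v : V) :
    tau G (pv G v) (pv G v) (pv G v) = tau G (one V) (one V) (one V)
      - 3 * tau G (qv G v) (one V) (one V) + 3 * tau G (qv G v) (qv G v) (one V)
      - tau G (qv G v) (qv G v) (qv G v) := by
  have h0 := tau_ppx G v (pv G v)
  have e1 : tau G (one V) (one V) (pv G v) = tau G (one V) (one V) (one V)
      - tau G (qv G v) (one V) (one V) := by
    rw [tau_swap23, tau_swap12]
    exact tau_sub_left G _ _ _ _
  have e2 : tau G (qv G v) (one V) (pv G v) = tau G (qv G v) (one V) (one V)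
      - tau G (qv G v) (qv G v) (one V) := by
    rw [tau_swap23, tau_swap12]
    have : tau G (pv G v) (qv G v) (one V) = tau G (one V) (qv G v) (one V)
      - tau G (qv G v) (qv G v) (one V) := tau_sub_left G _ _ _ _
    rw [this, tau_swap12 G (one V) (qv G v)]
  have e3 : tau G (qv G v) (qv G v) (pv G v) = tau G (qv G v) (qv G v) (one V)
      - tau G (qv G v) (qv G v) (qv G v) := by
    rw [tau_swap23, tau_swap12]
    have : tau G (pv G v) (qv G v) (qv G v) = tau G (one V) (qv G v) (qv G v)
      - tau G (qv G v) (qv G v) (qv G v) := tau_sub_left G _ _ _ _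
    rw [this, tau_swap12 G (one V) (qv G v), tau_swap23 G (qv G v) (one V)]
  rw [e1, e2, e3] at h0
  linarith

theorem om_11 {V : Type} [Fintype V] (G : SimpleGraph V) :
    om G (one V) (one V) = 2 * em G := by
  rw [two_em]
  unfold om one
  refine Finset.sum_congr rfl fun x _ => Finset.sum_congr rfl fun y _ => ?_
  ring

theorem om_qq {V : Type} [Fintype V] (G : SimpleGraph V) (v : V) :
    om G (qv G v) (qv G v) = 2 * eI G (NG G v) := by
  rw [two_eI_NG]
  rfl

theorem om_ppI {V : Type} [Fintype V] (G : SimpleGraph V) (v : V) :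
    om G (pv G v) (pv G v) = 2 * eI G (PH G v) := by
  rw [two_eI_PH]
  rfl

theorem om_q1 {V : Type} [Fintype V] (G : SimpleGraph V) (v : V) :
    om G (qv G v) (one V) = ∑ w, ad G v w * dg G w := by
  unfold om qv one dg
  refine Finset.sum_congr rfl fun x _ => ?_
  rw [Finset.mul_sum]
  refine Finset.sum_congr rfl fun y _ => ?_
  ring

theorem sum_dg {V : Type} [Fintype V] (G : SimpleGraph V) :
    ∑ w, dg G w = 2 * em G := by
  rw [two_em]
  rfl

theorem sum_PH_dg {V : Type} [Fintype V] (G : SimpleGraph V) (v : V) :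
    ∑ w ∈ PH G v, dg G w = 2 * em G - om G (qv G v) (one V) := by
  rw [sum_PH, om_q1, ← sum_dg, ← Finset.sum_sub_distrib]
  refine Finset.sum_congr rfl fun x _ => ?_
  ring

theorem tau_111 {V : Type} [Fintype V] (G : SimpleGraph V) :
    tau G (one V) (one V) (one V) = 6 * tm G := by
  rw [six_tm]
  unfold tau one
  refine Finset.sum_congr rfl fun x _ => Finset.sum_congr rfl fun y _ =>
    Finset.sum_congr rfl fun z _ => ?_
  ring

theorem tau_qqq {V : Type} [Fintype V] (G : SimpleGraph V) (v : V) :
    tau G (qv G v) (qv G v) (qv G v) = 6 * tI G (NG G v) := by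
  rw [six_tI_NG]
  rfl

theorem tau_pppI {V : Type} [Fintype V] (G : SimpleGraph V) (v : V) :
    tau G (pv G v) (pv G v) (pv G v) = 6 * tI G (PH G v) := by
  rw [six_tI_PH]
  rfl

theorem sum_PH_eI {V : Type} [Fintype V] (G : SimpleGraph V) (v : V) :
    2 * ∑ w ∈ PH G v, eI G (NG G w) = 6 * tm G - tau G (qv G v) (one V) (one V) := by
  have h1 : 2 * ∑ w ∈ PH G v, eI G (NG G w) = tau G (pv G v) (one V) (one V) := by
    rw [Finset.mul_sum, sum_PH]
    unfold tau
    refine Finset.sum_congr rfl fun w _ => ?_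
    rw [two_eI_NG, Finset.mul_sum]
    refine Finset.sum_congr rfl fun x _ => ?_
    rw [Finset.mul_sum]
    refine Finset.sum_congr rfl fun y _ => ?_
    unfold pv one qv
    ring
  have h2 : tau G (pv G v) (one V) (one V) = tau G (one V) (one V) (one V)
      - tau G (qv G v) (one V) (one V) := tau_sub_left G _ _ _ _
  rw [h1, h2, tau_111]

theorem cent_eq {V : Type} [Fintype V] (G : SimpleGraph V) (k δ : ℤ) (v : V) :
    Cent2 G k δ v = (Fintype.card V - k - δ - 1) * om G (pv G v) (pv G v)
      - tau G (pv G v) (pv G v) (one V) := by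
  unfold Cent2 om tau
  rw [sum_PH, Finset.mul_sum, ← Finset.sum_sub_distrib]
  refine Finset.sum_congr rfl fun x _ => ?_
  rw [sum_PH, Finset.mul_sum, Finset.mul_sum, ← Finset.sum_sub_distrib]
  refine Finset.sum_congr rfl fun y _ => ?_
  have e : ∑ z, pv G v x * pv G v y * one V z * (ad G x y * ad G y z * ad G x z)
      = pv G v x * pv G v y * ad G x y * co G x y := by
    unfold co
    rw [Finset.mul_sum]
    refine Finset.sum_congr rfl fun z _ => ?_
    unfold one
    ring
  rw [e]
  unfold cc pv one qv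
  ring

theorem id_pos {V : Type} [Fintype V] (G : SimpleGraph V) (k δ h : ℤ) (v : V) :
    pos k (h - 1) (dg G v) (eI G (NG G v)) = Dj k (δ - Xv G k v) + ev G k δ h v := by
  unfold Xv ev Yv
  exact pos_nbr k δ h (Fintype.card V) (dg G v) (eI G (NG G v))

theorem id_two {V : Type} [Fintype V] (G : SimpleGraph V) (k δ h : ℤ) (v : V) :
    ∑ w ∈ PH G v, ((Fintype.card V : ℤ) - δ - dg G w)
      = k * (Fintype.card V - δ - dg G v) + ev G k δ h v + (Dj k δ - psG G k h)
        - eI G (PH G v) := by
  have h1 : ∑ w ∈ PH G v, ((Fintype.card V : ℤ) - δ - dg G w)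
      = (Fintype.card V - dg G v) * ((Fintype.card V : ℤ) - δ) - ∑ w ∈ PH G v, dg G w := by
    rw [Finset.sum_sub_distrib, Finset.sum_const, nsmul_eq_mul, card_PH]
  have h2 := sum_PH_dg G v
  have h3 := om_ppI G v
  have h4 := om_pp G v
  have h5 := om_11 G
  have h6 := om_qq G v
  have a1 := two_c2 (Fintype.card V : ℤ)
  have a2 := two_c2 ((Fintype.card V : ℤ) - 1)
  have a3 := two_c2 δ
  rw [h1, h2]
  unfold ev Yv psG pos Dj
  have key : 2 * ((Fintype.card V - dg G v) * ((Fintype.card V : ℤ) - δ)
      - (2 * em G - om G (qv G v) (one V)))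
      = 2 * (k * (Fintype.card V - δ - dg G v) + ((Fintype.card V - δ - dg G v)
        - ((Fintype.card V - k - δ - 1) * dg G v - eI G (NG G v)
    - ((Fintype.card V - 1) * (Fintype.card V - δ - 1) - c2 (Fintype.card V - 1) + c2 δ
        - h * c2 (k + 1)))) + ((k * δ - c2 δ) - (k * Fintype.card V - c2 (Fintype.card V)
          + em G - h * c2 (k + 1)))
        - eI G (PH G v)) := by
    have e1 : 2 * eI G (PH G v) = 2 * em G - 2 * om G (qv G v) (one V) + 2 * eI G (NG G v) := by
      linarith
    linear_combination e1 - a1 + a2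
  linarith

theorem id_one {V : Type} [Fintype V] (G : SimpleGraph V) (k δ h : ℤ) (v : V) :
    2 * th G k δ h v = 2 * phG G k δ h + Cent2 G k δ v + 2 * tI G (PH G v)
      + 2 * kv G k δ h v := by
  have hY : 2 * ∑ w ∈ PH G v, Yv G k δ h w
      = 2 * (Fintype.card V - k - δ - 1) * (2 * em G - om G (qv G v) (one V))
        - (6 * tm G - tau G (qv G v) (one V) (one V))
        - 2 * (Fintype.card V - dg G v) * ((Fintype.card V - 1) * (Fintype.card V - δ - 1)
          - c2 (Fintype.card V - 1) + c2 δ - h * c2 (k + 1)) := by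
    rw [← sum_PH_eI, ← sum_PH_dg]
    unfold Yv
    rw [Finset.sum_sub_distrib, Finset.sum_sub_distrib, ← Finset.mul_sum, Finset.sum_const,
      nsmul_eq_mul, card_PH]
    ring
  have h3 := om_ppI G v
  have h4 := om_pp G v
  have h5 := om_11 G
  have h6 := om_qq G v
  have t1 := tau_ppp G v
  have t2 := tau_ppx G v (one V)
  have t3 := tau_111 G
  have t4 := tau_qqq G v
  have t5 := tau_pppI G v
  have c1 := cent_eq G k δ v
  have a1 := al_nbr k δ h (Fintype.card V) (dg G v)
  have hkv : 2 * kv G k δ h v = - 2 * (k * (Fintype.card V - k - δ - 1) * dg G v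
      + (Fintype.card V - k - dg G v) * ((Fintype.card V - 1) * (Fintype.card V - δ - 1)
        - c2 (Fintype.card V - 1) + c2 δ - h * c2 (k + 1))
      + al k δ h (Fintype.card V) + (Fintype.card V - 2 * k - δ - 1) * eI G (NG G v)
      - tI G (NG G v)) := by
    unfold kv phi Xv
    rw [a1]
    ring
  rw [hkv, c1, t2, h4, h5, h6, t3]
  unfold th phG phi
  rw [mul_sub, hY]
  unfold Yv
  have e1 : 2 * tI G (PH G v) = 2 * tm G - tau G (qv G v) (one V) (one V)
      + tau G (qv G v) (qv G v) (one V) - 2 * tI G (NG G v) := by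
    linarith
  linear_combination - e1
end Pool.Agent.Helper43.LS
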